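import Pool.Agent.U262.SW.E

/-!
# Non-intersection of two self-avoiding walks on `ℤ²` given their end points, for all end points
-/

set_option autoImplicit false

namespace Pool.Agent.Results.MP_8c6f77_pr.AnyEndPoints

/-- `w` is an `n`-step self-avoiding path on `ℤ²` from the origin. -/
def IsSAW (n : ℕ) (w : Fin (n + 1) → ℤ × ℤ) : Prop :=
  w 0 = (0, 0) ∧
  (∀ i : Fin n, |(w i.succ).1 - (w i.castSucc).1| + |(w i.succ).2 - (w i.castSucc).2| = 1) ∧
  Function.Injective w

/-- `a_n`, the number of `n`-step self-avoiding paths on `ℤ²` from the origin -/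
noncomputable def a (n : ℕ) : ℕ := Nat.card {w : Fin (n + 1) → ℤ × ℤ // IsSAW n w}

/-- `a_n(x)`, the number of those with `w(n) = x` -/
noncomputable def ax (n : ℕ) (x : ℤ × ℤ) : ℕ :=
  Nat.card {w : Fin (n + 1) → ℤ × ℤ // IsSAW n w ∧ w (Fin.last n) = x}

/-- `w{1,…,n} ∩ w'{0,…,m} = ∅` -/
def Disj {n m : ℕ} (w : Fin (n + 1) → ℤ × ℤ) (w' : Fin (m + 1) → ℤ × ℤ) : Prop :=
  ∀ i j, i ≠ 0 → w i ≠ w' j

/-- the number of disjoint pairs of self-avoiding paths with `n` and `m` steps and end points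
`x` and `y` -/
noncomputable def pairs (n m : ℕ) (x y : ℤ × ℤ) : ℕ :=
  Nat.card {q : (Fin (n + 1) → ℤ × ℤ) × (Fin (m + 1) → ℤ × ℤ) //
    (IsSAW n q.1 ∧ IsSAW m q.2 ∧ Disj q.1 q.2) ∧ q.1 (Fin.last n) = x ∧ q.2 (Fin.last m) = y}

/-- the number of disjoint pairs of self-avoiding paths with `n` steps -/
noncomputable def D (n : ℕ) : ℕ :=
  Nat.card {q : (Fin (n + 1) → ℤ × ℤ) × (Fin (n + 1) → ℤ × ℤ) //
    IsSAW n q.1 ∧ IsSAW n q.2 ∧ Disj q.1 q.2}

/-- `P[w, w' disjoint | w(n) = x, w'(m) = y]` for independent uniform self-avoiding paths `w`, `w'`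
with `n` and `m` steps -/
noncomputable def P (n m : ℕ) (x y : ℤ × ℤ) : ℝ := (pairs n m x y : ℝ) / (ax n x * ax m y)

/-- `P_n(w(n) = x)` -/
noncomputable def E (n : ℕ) (x : ℤ × ℤ) : ℝ := (ax n x : ℝ) / a n

/-- `P_n[w(n) = x, w'(n) = y | w, w' disjoint]` -/
noncomputable def PD (n : ℕ) (x y : ℤ × ℤ) : ℝ := (pairs n n x y : ℝ) / D n

/-- `x` and `y` lie on one ray from the origin -/
def SameRay (x y : ℤ × ℤ) : Prop := x.1 * y.2 = x.2 * y.1 ∧ 0 < x.1 * y.1 + x.2 * y.2

/-- either `x` and `y` are not on one ray from the origin, or they are different and there are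
walks with fewer than `n` steps to `x` and with fewer than `m` steps to `y` -/
def Cond (n m : ℕ) (x y : ℤ × ℤ) : Prop :=
  ¬ SameRay x y ∨ (x ≠ y ∧ |x.1| + |x.2| < n ∧ |y.1| + |y.2| < m)

/-- **Non-intersection given the end points.**  There is a constant `K` such that for all lattice
points `x`, `y` which are not on one ray from the origin, and also for all `x ≠ y` on one ray if
`n > |x|₁` and `m > |y|₁`:
(1) if walks with `n, m ≥ 2` steps can reach `x` and `y`, the conditional probability of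
non-intersection given both end points is at least `exp (-K ((log n)^2 + (log m)^2))`;
(2) for two walks with `n` steps, the conditional law of the pair of end points given
non-intersection and the product law agree at `(x, y)` up to a factor `exp (± K (log n)^2)`;
(3) there is a convex function `I` on the square `|v₁| + |v₂| ≤ 1` such that for all these `x`, `y`
which can be reached with `n` steps, the conditional law of the pair of end points given
non-intersection is `exp (- n (I (x / n) + I (y / n)))` up to a factor `exp (± K (log n)^2)`. -/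
theorem result : ∃ (K : ℝ) (I : ℝ × ℝ → ℝ), ConvexOn ℝ {v : ℝ × ℝ | |v.1| + |v.2| ≤ 1} I ∧
    (∀ n m : ℕ, 2 ≤ n → 2 ≤ m → ∀ x y : ℤ × ℤ, 0 < ax n x → 0 < ax m y → Cond n m x y →
      Real.exp (-(K * (Real.log n ^ 2 + Real.log m ^ 2))) ≤ P n m x y) ∧
    (∀ n : ℕ, 2 ≤ n → ∀ x y : ℤ × ℤ, Cond n n x y →
      Real.exp (-(K * Real.log n ^ 2)) * (E n x * E n y) ≤ PD n x y ∧
      PD n x y ≤ Real.exp (K * Real.log n ^ 2) * (E n x * E n y)) ∧
    (∀ n : ℕ, 2 ≤ n → ∀ x y : ℤ × ℤ, 0 < ax n x → 0 < ax n y → Cond n n x y → 0 < PD n x y ∧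
      |Real.log (PD n x y) + n * (I ((x.1 : ℝ) / n, (x.2 : ℝ) / n) +
        I ((y.1 : ℝ) / n, (y.2 : ℝ) / n))| ≤ K * Real.log n ^ 2) := by
  obtain ⟨K, hK, h⟩ := U262.SW.ends'
  obtain ⟨B, hB, hD⟩ := Y981.L2X.UE.D_ge
  obtain ⟨A2, hA2, a2⟩ := Y981.L2.ldp_words
  have key : ∀ n m : ℕ, 2 ≤ n → 2 ≤ m → ∀ x y : ℤ × ℤ, Cond n m x y →
      (ax n x : ℝ) * ax m y ≤ Real.exp (K * (Real.log n ^ 2 + Real.log m ^ 2)) * pairs n m x y :=
    fun n m hn hm x y hc => h n m hn hm x y hc
  have hDl : ∀ n, (D n : ℝ) ≤ (a n : ℝ) * a n := Y981.L2X.UE.D_le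
  have hap : ∀ n, (0 : ℝ) < a n := TH262.UL.a_pos
  have hDg : ∀ n : ℕ, 2 ≤ n → Real.exp (-(B * Real.log n ^ 2)) * ((a n : ℝ) * a n) ≤ D n := hD
  have hprl : ∀ n x y, pairs n n x y ≤ ax n x * ax n y := fun n x y => Y981.L2X.UE.pr_le_mul n n x y
  have hax : ∀ n x, ax n x = TH795.EP.a n x.1 x.2 := fun n x => Y981.L2X.UE.ax_eq n x
  have han : ∀ n, a n = TH795.EP.c n := fun n => TH795.EP2.card_walks n
  have hx0 : ∀ n : ℕ, 2 ≤ n → ∀ x, 0 < ax n x → x ≠ (0, 0) := fun n hn x hx =>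
    U262.SW.ne_of_ax (by omega) hx
  have hDp : ∀ n : ℕ, 2 ≤ n → (0 : ℝ) < D n := by
    intro n hn
    refine lt_of_lt_of_le ?_ (hDg n hn)
    have := hap n
    positivity
  have lo : ∀ n : ℕ, 2 ≤ n → ∀ x y : ℤ × ℤ, Cond n n x y →
      Real.exp (-(2 * K * Real.log n ^ 2)) * (E n x * E n y) ≤ PD n x y := by
    intro n hn x y hs
    have h1 := key n n hn hn x y hs
    obtain ⟨L, hL⟩ : ∃ L, L = Real.log (n : ℝ) ^ 2 := ⟨_, rfl⟩
    have hl : 0 ≤ L := by rw [hL]; exact pow_nonneg (Real.log_natCast_nonneg n) 2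
    rw [← hL] at h1 ⊢
    have hA : (0 : ℝ) ≤ pairs n n x y := Nat.cast_nonneg _
    have hap' := hap n
    have hDp' := hDp n hn
    have hDl' := hDl n
    unfold PD E
    rw [le_div_iff₀ hDp']
    have e1 : (ax n x : ℝ) / a n * ((ax n y : ℝ) / a n) = ((ax n x : ℝ) * ax n y) / ((a n : ℝ) * a n) := by
      field_simp
    rw [e1]
    calc Real.exp (-(2 * K * L)) * (((ax n x : ℝ) * ax n y) / ((a n : ℝ) * a n)) * D n
        ≤ Real.exp (-(2 * K * L)) * (((ax n x : ℝ) * ax n y) / ((a n : ℝ) * a n)) *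
          ((a n : ℝ) * a n) := by gcongr
      _ = Real.exp (-(2 * K * L)) * ((ax n x : ℝ) * ax n y) := by field_simp
      _ ≤ Real.exp (-(2 * K * L)) * (Real.exp (K * (L + L)) * pairs n n x y) := by gcongr
      _ = 1 * pairs n n x y := by
          rw [← mul_assoc, ← Real.exp_add]; congr 1; rw [← Real.exp_zero]; congr 1; ring
      _ = _ := one_mul _
  have up : ∀ n : ℕ, 2 ≤ n → ∀ x y : ℤ × ℤ,
      PD n x y ≤ Real.exp (B * Real.log n ^ 2) * (E n x * E n y) := by
    intro n hn x y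
    obtain ⟨L, hL⟩ : ∃ L, L = Real.log (n : ℝ) ^ 2 := ⟨_, rfl⟩
    have hl : 0 ≤ L := by rw [hL]; positivity
    have hDg' := hDg n hn
    rw [← hL] at hDg' ⊢
    have hap' := hap n
    have hDp' := hDp n hn
    have h1 : (pairs n n x y : ℝ) ≤ (ax n x : ℝ) * ax n y := by exact_mod_cast hprl n x y
    unfold PD E
    rw [div_le_iff₀ hDp']
    have e1 : (ax n x : ℝ) / a n * ((ax n y : ℝ) / a n) = ((ax n x : ℝ) * ax n y) / ((a n : ℝ) * a n) := by
      field_simp
    rw [e1]
    have h2 : (0 : ℝ) ≤ (ax n x : ℝ) * ax n y := by positivity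
    calc (pairs n n x y : ℝ) ≤ (ax n x : ℝ) * ax n y := h1
      _ = Real.exp (B * L) * (((ax n x : ℝ) * ax n y) / ((a n : ℝ) * a n)) *
          (Real.exp (-(B * L)) * ((a n : ℝ) * a n)) := by
          have e2 : Real.exp (B * L) * Real.exp (-(B * L)) = 1 := by
            rw [← Real.exp_add, add_neg_cancel, Real.exp_zero]
          calc (ax n x : ℝ) * ax n y = 1 * ((ax n x : ℝ) * ax n y) := (one_mul _).symm
            _ = (Real.exp (B * L) * Real.exp (-(B * L))) * ((ax n x : ℝ) * ax n y) := by rw [e2]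
            _ = _ := by field_simp
      _ ≤ Real.exp (B * L) * (((ax n x : ℝ) * ax n y) / ((a n : ℝ) * a n)) * D n := by
          gcongr
  have ldp : ∀ n : ℕ, 2 ≤ n → ∀ x : ℤ × ℤ, 0 < ax n x →
      |Real.log (E n x) + n * Y981.L2.Rate ((x.1 : ℝ) / n, (x.2 : ℝ) / n)| ≤
        A2 * Real.log n ^ 2 := by
    intro n hn x hx
    have h1 : 0 < TH795.EP.a n x.1 x.2 := by rw [← hax]; exact hx
    obtain ⟨w, hw, hwx, hwy, hwl⟩ := TH795.EP2.exists_of_a h1
    have hp := TH795.EP2.parity w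
    have hb := TH795.EP2.abs_add_abs_le w
    rw [hwx, hwy] at hp hb
    have g := a2 n hn x.1 x.2 (hx0 n hn x hx) (by omega) (by omega)
    unfold E
    rw [hax, han]
    exact g
  refine ⟨2 * K + B + 2 * A2, Y981.L2.Rate, Y981.L2.convex_rate, ?_, ?_, ?_⟩
  · intro n m hn hm x y hx hy hc
    have hx' : (0 : ℝ) < ax n x := by exact_mod_cast hx
    have hy' : (0 : ℝ) < ax m y := by exact_mod_cast hy
    have h1 := key n m hn hm x y hc
    have hl : 0 ≤ Real.log (n : ℝ) ^ 2 + Real.log (m : ℝ) ^ 2 :=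
      add_nonneg (pow_nonneg (Real.log_natCast_nonneg n) 2) (pow_nonneg (Real.log_natCast_nonneg m) 2)
    unfold P
    rw [le_div_iff₀ (by positivity)]
    obtain ⟨L, hL⟩ : ∃ L, L = Real.log (n : ℝ) ^ 2 + Real.log (m : ℝ) ^ 2 := ⟨_, rfl⟩
    rw [← hL] at h1 hl ⊢
    have hA : (0 : ℝ) ≤ pairs n m x y := Nat.cast_nonneg _
    calc Real.exp (-((2 * K + B + 2 * A2) * L)) * ((ax n x : ℝ) * ax m y)
        ≤ Real.exp (-((2 * K + B + 2 * A2) * L)) * (Real.exp (K * L) * pairs n m x y) := by gcongr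
      _ = Real.exp (-((K + B + 2 * A2) * L)) * pairs n m x y := by
          rw [← mul_assoc, ← Real.exp_add]; congr 2; ring
      _ ≤ 1 * pairs n m x y := by
          have e : Real.exp (-((K + B + 2 * A2) * L)) ≤ 1 := by
            rw [← Real.exp_zero]
            apply Real.exp_le_exp.2
            have : 0 ≤ (K + B + 2 * A2) * L := by positivity
            linarith
          gcongr
      _ = _ := one_mul _
  · intro n hn x y hc
    have hl : 0 ≤ Real.log (n : ℝ) ^ 2 := pow_nonneg (Real.log_natCast_nonneg n) 2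
    have hEE : 0 ≤ E n x * E n y := by unfold E; positivity
    refine ⟨le_trans ?_ (lo n hn x y hc), (up n hn x y).trans ?_⟩
    · apply mul_le_mul_of_nonneg_right _ hEE
      apply Real.exp_le_exp.2
      nlinarith [mul_nonneg hB hl, mul_nonneg hA2 hl]
    · apply mul_le_mul_of_nonneg_right _ hEE
      apply Real.exp_le_exp.2
      nlinarith [mul_nonneg hK hl, mul_nonneg hA2 hl]
  · intro n hn x y hx hy hc
    have hl : 0 ≤ Real.log (n : ℝ) ^ 2 := pow_nonneg (Real.log_natCast_nonneg n) 2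
    have hx' : (0 : ℝ) < ax n x := by exact_mod_cast hx
    have hy' : (0 : ℝ) < ax n y := by exact_mod_cast hy
    have hEx : 0 < E n x := div_pos hx' (hap n)
    have hEy : 0 < E n y := div_pos hy' (hap n)
    have h1 := lo n hn x y hc
    have h2 := up n hn x y
    have hpos : 0 < PD n x y := lt_of_lt_of_le (by positivity) h1
    refine ⟨hpos, ?_⟩
    have l1 := Real.log_le_log (by positivity) h1
    have l2 := Real.log_le_log hpos h2
    rw [Real.log_mul (Real.exp_pos _).ne' (mul_pos hEx hEy).ne', Real.log_exp,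
      Real.log_mul hEx.ne' hEy.ne'] at l1 l2
    obtain ⟨g1, g2⟩ := abs_le.1 (ldp n hn x hx)
    obtain ⟨g3, g4⟩ := abs_le.1 (ldp n hn y hy)
    rw [abs_le]
    have p1 := mul_nonneg hK hl
    have p2 := mul_nonneg hB hl
    constructor <;> nlinarith

end Pool.Agent.Results.MP_8c6f77_pr.AnyEndPoints
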