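import Pool.Agent.U262.SW.T

/-!
Up to four mutually avoiding self-avoiding walks from the origin of `ℤ²` (stars), with arbitrary
lengths.
-/

set_option autoImplicit false

namespace Pool.Agent.Results.MP_8c6f77_pr.FourWalks

open Filter Topology

/-- `ω` is an `n`-step self-avoiding walk on `ℤ²` started at the origin. -/
def IsSAW (n : ℕ) (ω : Fin (n + 1) → ℤ × ℤ) : Prop :=
  ω 0 = (0, 0) ∧
  (∀ i : Fin n, |(ω i.succ).1 - (ω i.castSucc).1| + |(ω i.succ).2 - (ω i.castSucc).2| = 1) ∧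
  Function.Injective ω

/-- the number of `n`-step self-avoiding walks from the origin -/
noncomputable def a (n : ℕ) : ℕ := Nat.card {ω : Fin (n + 1) → ℤ × ℤ // IsSAW n ω}

/-- four self-avoiding walks from the origin, with `n i` steps, no two of which have a common point
other than the origin -/
def Star (n : Fin 4 → ℕ) (ω : (i : Fin 4) → Fin (n i + 1) → ℤ × ℤ) : Prop :=
  (∀ i, IsSAW (n i) (ω i)) ∧ ∀ i j, i ≠ j → ∀ s t, ω i s = ω j t → s = 0 ∧ t = 0

/-- the number of the stars -/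
noncomputable def S (n : Fin 4 → ℕ) : ℕ :=
  Nat.card {ω : (i : Fin 4) → Fin (n i + 1) → ℤ × ℤ // Star n ω}

/-- the probability that four independent uniform self-avoiding walks from the origin with `n i`
steps are mutually avoiding (no two of them have a common point other than the origin) -/
noncomputable def P (n : Fin 4 → ℕ) : ℝ := (S n : ℝ) / ∏ i, (a (n i) : ℝ)

theorem a_eq (n : ℕ) : a n = TH795.EP.c n := TH795.EP2.card_walks n

/-- the walks of the words -/
def wk (n : Fin 4 → ℕ) (W : Fin 4 → List H981.St) (i : Fin 4) : Fin (n i + 1) → ℤ × ℤ :=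
  TH795.EP2.ew (n i) (W i)

theorem star_iff {n : Fin 4 → ℕ} {W : Fin 4 → List H981.St}
    (hW : ∀ i, H981.Saw (W i) ∧ (W i).length = n i) :
    Star n (wk n W) ↔ U262.SW.IsStar n W := by
  unfold Star U262.SW.IsStar
  constructor
  · rintro ⟨-, h⟩
    refine ⟨hW, fun i j hij s hs t ht he => ?_⟩
    obtain ⟨h1, h2⟩ := h i j hij ⟨s, by omega⟩ ⟨t, by omega⟩ he
    have h3 := congrArg Fin.val h1
    have h4 := congrArg Fin.val h2
    simp only [Fin.val_zero] at h3 h4
    exact ⟨h3, h4⟩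
  · rintro ⟨-, h⟩
    refine ⟨fun i => TH795.EP2.ew_saw (n i) (hW i).2 (hW i).1, fun i j hij s t he => ?_⟩
    obtain ⟨h1, h2⟩ := h i j hij s.val (by have := s.2; omega) t.val (by have := t.2; omega) he
    exact ⟨Fin.ext (by simpa using h1), Fin.ext (by simpa using h2)⟩

theorem S_eq (n : Fin 4 → ℕ) : S n = (U262.SW.stF n).card := by
  have h1 : S n = {ω | Star n ω}.ncard := Nat.card_coe_set_eq _
  have h2 : {ω | Star n ω} = wk n '' (U262.SW.stF n : Set (Fin 4 → List H981.St)) := by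
    ext ω
    constructor
    · intro h
      have h3 : ∀ i, ∃ w, (H981.Saw w ∧ w.length = n i) ∧ TH795.EP2.ew (n i) w = ω i := by
        intro i
        have h4 := TH795.EP2.image_eq (n i) (fun _ => True) (fun _ => True) (fun _ _ => Iff.rfl)
        have h5 : ω i ∈ {ω | H981.IsSAW (n i) ω ∧ True} := ⟨h.1 i, trivial⟩
        rw [h4] at h5
        obtain ⟨w, hw, hw2⟩ := h5
        rw [Finset.mem_coe, TH795.EP.mem_fs] at hw
        exact ⟨w, ⟨hw.1.1, hw.2⟩, hw2⟩
      choose W hW hW2 using h3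
      refine ⟨W, ?_, funext hW2⟩
      rw [Finset.mem_coe, U262.SW.mem_stF, ← star_iff hW]
      have h6 : wk n W = ω := funext hW2
      rw [h6]
      exact h
    · rintro ⟨W, hW, rfl⟩
      rw [Finset.mem_coe, U262.SW.mem_stF] at hW
      exact (star_iff hW.1).2 hW
  rw [h1, h2, Set.InjOn.ncard_image, Set.ncard_coe_finset]
  intro W hW W' hW' he
  rw [Finset.mem_coe, U262.SW.mem_stF] at hW hW'
  funext i
  exact TH795.EP2.ew_injOn (n i) (hW.1 i).2 (hW'.1 i).2 (congrFun he i)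

theorem S_le (n : Fin 4 → ℕ) : S n ≤ ∏ i, a (n i) := by
  classical
  rw [S_eq]
  simp only [a_eq]
  unfold TH795.EP.c
  rw [← Fintype.card_piFinset]
  apply Finset.card_le_card
  intro W hW
  rw [U262.SW.mem_stF] at hW
  rw [Fintype.mem_piFinset]
  intro i
  rw [TH795.EP.mem_fs]
  exact hW.1 i

/-- **Theorem.** Let `μ = lim (a n)^(1/n)` be the connective constant of `ℤ²`. There is a constant
`K` such that for all lengths `n 0, n 1, n 2, n 3` (some of them may be `0`), with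
`E = K (log (n 0 + n 1 + n 2 + n 3 + 2))^2`:
(1) four independent uniform self-avoiding walks from the origin with these lengths are mutually
avoiding with probability at least `exp (- E)`;
(2) the number of the stars with four arms of these lengths is
`μ ^ (n 0 + n 1 + n 2 + n 3)` up to a factor `exp (± E)`. -/
theorem result : ∃ μ : ℝ, 0 < μ ∧
    Tendsto (fun n : ℕ => (a n : ℝ) ^ (1 / (n : ℝ))) atTop (𝓝 μ) ∧
    ∃ K : ℝ, ∀ (n : Fin 4 → ℕ) (E : ℝ),
      E = K * Real.log ((n 0 + n 1 + n 2 + n 3 + 2 : ℕ) : ℝ) ^ 2 →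
      (Real.exp (-E) ≤ P n ∧ P n ≤ 1) ∧
      Real.exp (-E) * μ ^ (n 0 + n 1 + n 2 + n 3) ≤ S n ∧
      (S n : ℝ) ≤ Real.exp E * μ ^ (n 0 + n 1 + n 2 + n 3) := by
  obtain ⟨K1, hK1, h1⟩ := U262.SW.star_lower
  obtain ⟨K2, hK2, h2, -⟩ := TH795.EP2.exists_K
  refine ⟨H981.mu, H981.mu_pos, ?_, K1 + 4 * K2, ?_⟩
  · have h := H981.tendsto_root
    simp only [← TH795.EP.c_eq] at h
    simp only [a_eq]
    exact h
  rintro n E rfl
  obtain ⟨M, hM⟩ : ∃ M, M = n 0 + n 1 + n 2 + n 3 + 2 := ⟨_, rfl⟩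
  have hM2 : 2 ≤ M := by omega
  have g1 := h1 n
  rw [← hM] at g1 ⊢
  have hS := S_eq n
  have hprod : (∏ i, (a (n i) : ℝ)) = ((∏ i, TH795.EP.c (n i) : ℕ) : ℝ) := by
    push_cast
    exact Finset.prod_congr rfl fun i _ => by rw [a_eq]
  have hpos : 0 < ∏ i, (a (n i) : ℝ) := Finset.prod_pos fun i _ => by
    rw [a_eq]; exact TH795.EP2.c_pos _
  have hle : (S n : ℝ) ≤ ∏ i, (a (n i) : ℝ) := by exact_mod_cast S_le n
  have hmu := H981.mu_pos
  have hlow : H981.mu ^ (n 0 + n 1 + n 2 + n 3) ≤ ∏ i, (a (n i) : ℝ) := by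
    rw [Fin.prod_univ_four, pow_add, pow_add, pow_add]
    have h3 : ∀ m, H981.mu ^ m ≤ (a m : ℝ) := by
      intro m; rw [a_eq, TH795.EP.c_eq]; exact H981.mu_pow_le m
    gcongr <;> exact h3 _
  have hupp : ∏ i, (a (n i) : ℝ) ≤
      H981.mu ^ (n 0 + n 1 + n 2 + n 3) * TH795.EP2.q M (4 * K2) := by
    rw [Fin.prod_univ_four]
    have h3 : ∀ i, (a (n i) : ℝ) ≤ H981.mu ^ (n i) * TH795.EP2.q M K2 := by
      intro i
      rw [a_eq]
      apply h2 M hM2
      have : n i ≤ n 0 + n 1 + n 2 + n 3 := by fin_cases i <;> simp <;> omega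
      omega
    have q2 := TH795.EP2.q_pos M K2
    have e1 : (a (n 0) : ℝ) * a (n 1) * a (n 2) * a (n 3) ≤
        (H981.mu ^ (n 0) * TH795.EP2.q M K2) * (H981.mu ^ (n 1) * TH795.EP2.q M K2) *
        (H981.mu ^ (n 2) * TH795.EP2.q M K2) * (H981.mu ^ (n 3) * TH795.EP2.q M K2) := by
      gcongr <;> exact h3 _
    refine e1.trans (le_of_eq ?_)
    have e4 : TH795.EP2.q M (4 * K2) = TH795.EP2.q M K2 * TH795.EP2.q M K2 *
        (TH795.EP2.q M K2 * TH795.EP2.q M K2) := by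
      rw [TH795.EP2.q_mul, TH795.EP2.q_mul]; congr 1; ring
    rw [e4, pow_add, pow_add, pow_add]
    ring
  have hSlow : Real.exp (-((K1 + 4 * K2) * Real.log (M : ℝ) ^ 2)) * ∏ i, (a (n i) : ℝ) ≤ S n := by
    rw [← hS, ← hprod] at g1
    have e2 : Real.exp (-((K1 + 4 * K2) * Real.log (M : ℝ) ^ 2)) * TH795.EP2.q M K1 ≤ 1 := by
      unfold TH795.EP2.q
      rw [← Real.exp_add]
      apply Real.exp_le_one_iff.2
      have : 0 ≤ 4 * K2 * Real.log (M : ℝ) ^ 2 := by positivity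
      linarith
    have hS0 : (0 : ℝ) ≤ S n := Nat.cast_nonneg _
    calc Real.exp (-((K1 + 4 * K2) * Real.log (M : ℝ) ^ 2)) * ∏ i, (a (n i) : ℝ)
        ≤ Real.exp (-((K1 + 4 * K2) * Real.log (M : ℝ) ^ 2)) *
          (TH795.EP2.q M K1 * S n) := by gcongr
      _ = (Real.exp (-((K1 + 4 * K2) * Real.log (M : ℝ) ^ 2)) * TH795.EP2.q M K1) * S n := by ring
      _ ≤ 1 * S n := mul_le_mul_of_nonneg_right e2 hS0
      _ = S n := one_mul _
  refine ⟨⟨?_, ?_⟩, ?_, ?_⟩
  · unfold P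
    rw [le_div_iff₀ hpos]
    exact hSlow
  · unfold P
    rw [div_le_one hpos]
    exact hle
  · exact (mul_le_mul_of_nonneg_left hlow (Real.exp_pos _).le).trans hSlow
  · refine (hle.trans hupp).trans ?_
    rw [mul_comm]
    apply mul_le_mul_of_nonneg_right _ (pow_pos hmu _).le
    unfold TH795.EP2.q
    apply Real.exp_le_exp.2
    have : 0 ≤ K1 * Real.log (M : ℝ) ^ 2 := by positivity
    linarith

end Pool.Agent.Results.MP_8c6f77_pr.FourWalks
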