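import Pool.Agent.U126.QP.All
import Pool.Agent.W840.CT.Pair

/-! # Two disjoint self-avoiding walks on the square lattice are seldom close, at all distances -/

set_option autoImplicit false

namespace Pool.Agent.Results.MP_8c6f77_pr.NearPairsLog

/-- `w` is an `n`-step self-avoiding path on `ℤ²` from the origin. -/
def IsSAW (n : ℕ) (w : Fin (n + 1) → ℤ × ℤ) : Prop :=
  w 0 = (0, 0) ∧
  (∀ i : Fin n, |(w i.succ).1 - (w i.castSucc).1| + |(w i.succ).2 - (w i.castSucc).2| = 1) ∧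
  Function.Injective w

/-- `a_n`, the number of `n`-step self-avoiding paths on `ℤ²` from the origin -/
noncomputable def a (n : ℕ) : ℕ := Nat.card {w : Fin (n + 1) → ℤ × ℤ // IsSAW n w}

/-- `w{1,…,n} ∩ w'{0,…,m} = ∅` -/
def Disj {n m : ℕ} (w : Fin (n + 1) → ℤ × ℤ) (w' : Fin (m + 1) → ℤ × ℤ) : Prop :=
  ∀ i j, i ≠ 0 → w i ≠ w' j

/-- the number of pairs of times `i, j ≥ 1` such that `w(i)` and `w'(j)` are within distance `r`
(in the norm `|x| + |y|`) -/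
noncomputable def nearPairs (r : ℕ) {n m : ℕ} (w : Fin (n + 1) → ℤ × ℤ)
    (w' : Fin (m + 1) → ℤ × ℤ) : ℕ :=
  Nat.card {q : Fin (n + 1) × Fin (m + 1) //
    q.1 ≠ 0 ∧ q.2 ≠ 0 ∧ |(w' q.2).1 - (w q.1).1| + |(w' q.2).2 - (w q.1).2| ≤ (r : ℤ)}

/-- the probability that two independent uniform self-avoiding paths `w, w'` with `n` and `m` steps
are disjoint (apart from their starting point) and have the property `Q` -/
noncomputable def P (n m : ℕ)
    (Q : (Fin (n + 1) → ℤ × ℤ) → (Fin (m + 1) → ℤ × ℤ) → Prop) : ℝ :=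
  (Nat.card {q : (Fin (n + 1) → ℤ × ℤ) × (Fin (m + 1) → ℤ × ℤ) //
    IsSAW n q.1 ∧ IsSAW m q.2 ∧ Disj q.1 q.2 ∧ Q q.1 q.2} : ℝ) / (a n * a m)

theorem nearPairs_eq (r : ℕ) {n m : ℕ} (w : Fin (n + 1) → ℤ × ℤ) (w' : Fin (m + 1) → ℤ × ℤ) :
    nearPairs r w w' = U126.NC.CK r w w' := by
  classical
  unfold nearPairs U126.NC.CK
  rw [Nat.card_eq_fintype_card, Fintype.card_subtype]
  congr 1
  ext q
  simp only [Finset.mem_filter]
  rfl

theorem disj_iff {n m : ℕ} {w : Fin (n + 1) → ℤ × ℤ} {w' : Fin (m + 1) → ℤ × ℤ}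
    (h : IsSAW n w) (h' : IsSAW m w') : Disj w w' ↔ W840.CT.DJ w w' := by
  constructor
  · intro hd i j hij
    have hi : i = 0 := by
      by_contra hi
      exact hd i j hi hij
    subst hi
    refine ⟨rfl, h'.2.2 ?_⟩
    rw [← hij, h.1, h'.1]
  · intro hd i j hi hij
    exact hi (hd i j hij).1

theorem a_pos (n : ℕ) : (0 : ℝ) < a n := by
  have h := W840.CT.cn_pos n
  have e : (a n : ℝ) = W840.CT.cn n := rfl
  rw [e]
  linarith

/-- one distance -/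
theorem one : ∃ K : ℝ, 0 < K ∧ ∀ r n m : ℕ, 1 ≤ r → ∀ x : ℝ, 0 ≤ x →
    P n m (fun w w' => Real.exp (K * Real.log (r + 1) ^ 3) * (1 + x) ≤ (nearPairs r w w' : ℝ)) ≤
      Real.exp (-x) := by
  obtain ⟨K7, hK7, h7⟩ := U126.QP.fin U126.QP.all
  have hC0 : 0 ≤ Real.log 2 := Real.log_nonneg (by norm_num)
  refine ⟨K7 + 20 * Real.log 2, by linarith, fun r n m hr x hx => ?_⟩
  obtain ⟨D, hD1, hD2, hD3⟩ := h7 r hr
  set G : ℕ := (2 * r + 1) ^ 2 * D with hGdef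
  set F : ℝ := Real.exp ((K7 + 20 * Real.log 2) * Real.log (r + 1) ^ 3) with hF
  have hGF : 2 * (G : ℝ) ≤ F :=
    (mul_le_mul_of_nonneg_left hD3 (by norm_num)).trans
      (U126.QP.absorb (by norm_num) hr)
  set s := ⌈x⌉₊ with hs
  have hs1 : (s : ℝ) ≤ x + 1 := (Nat.ceil_lt_add_one hx).le
  have hs2 : x ≤ s := Nat.le_ceil _
  have h1 := U126.QP.pair_tailD hD2 n m s
  rw [← hGdef] at h1
  have hth : ((G * (s + 1) : ℕ) : ℝ) ≤ F * (1 + x) := by
    push_cast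
    have hG0 : (0 : ℝ) ≤ G := Nat.cast_nonneg _
    calc (G : ℝ) * (s + 1) ≤ G * (2 * (1 + x)) := by
          refine mul_le_mul_of_nonneg_left (by linarith) hG0
      _ = 2 * G * (1 + x) := by ring
      _ ≤ F * (1 + x) := mul_le_mul_of_nonneg_right hGF (by linarith)
  have hn := a_pos n
  have hm := a_pos m
  unfold P
  rw [div_le_iff₀ (by positivity)]
  have hfin : ({q | W840.CT.SW n q.1 ∧ W840.CT.SW m q.2 ∧ W840.CT.DJ q.1 q.2 ∧
      G * (s + 1) ≤ U126.NC.CK r q.1 q.2} :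
      Set ((Fin (n + 1) → ℤ × ℤ) × (Fin (m + 1) → ℤ × ℤ))).Finite :=
    ((W840.CT.SW_finite n).prod (W840.CT.SW_finite m)).subset (fun q hq => ⟨hq.1, hq.2.1⟩)
  have hle : Nat.card {q : (Fin (n + 1) → ℤ × ℤ) × (Fin (m + 1) → ℤ × ℤ) //
      IsSAW n q.1 ∧ IsSAW m q.2 ∧ Disj q.1 q.2 ∧
        F * (1 + x) ≤ (nearPairs r q.1 q.2 : ℝ)} ≤
      ({q | W840.CT.SW n q.1 ∧ W840.CT.SW m q.2 ∧ W840.CT.DJ q.1 q.2 ∧
      G * (s + 1) ≤ U126.NC.CK r q.1 q.2} :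
      Set ((Fin (n + 1) → ℤ × ℤ) × (Fin (m + 1) → ℤ × ℤ))).ncard := by
    rw [← Nat.card_coe_set_eq]
    have : Finite ({q | W840.CT.SW n q.1 ∧ W840.CT.SW m q.2 ∧ W840.CT.DJ q.1 q.2 ∧
      G * (s + 1) ≤ U126.NC.CK r q.1 q.2} :
      Set ((Fin (n + 1) → ℤ × ℤ) × (Fin (m + 1) → ℤ × ℤ))) := hfin.to_subtype
    refine Nat.card_le_card_of_injective (fun q => ⟨q.1, q.2.1, q.2.2.1,
      (disj_iff q.2.1 q.2.2.1).1 q.2.2.2.1, ?_⟩) ?_
    · have h5 := q.2.2.2.2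
      rw [nearPairs_eq] at h5
      exact_mod_cast hth.trans h5
    · intro q q' h
      simp only [Subtype.mk.injEq] at h
      exact Subtype.ext h
  have h2 : (4 : ℝ) ^ s * (({q | W840.CT.SW n q.1 ∧ W840.CT.SW m q.2 ∧ W840.CT.DJ q.1 q.2 ∧
      G * (s + 1) ≤ U126.NC.CK r q.1 q.2} :
      Set ((Fin (n + 1) → ℤ × ℤ) × (Fin (m + 1) → ℤ × ℤ))).ncard : ℝ) ≤ a n * a m := by
    exact_mod_cast h1
  set X := (({q | W840.CT.SW n q.1 ∧ W840.CT.SW m q.2 ∧ W840.CT.DJ q.1 q.2 ∧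
      G * (s + 1) ≤ U126.NC.CK r q.1 q.2} :
      Set ((Fin (n + 1) → ℤ × ℤ) × (Fin (m + 1) → ℤ × ℤ))).ncard : ℝ) with hX
  have h3 : Real.exp x ≤ (4 : ℝ) ^ s := by
    calc Real.exp x ≤ Real.exp s := Real.exp_le_exp.2 hs2
      _ = Real.exp 1 ^ s := by rw [← Real.exp_nat_mul, mul_one]
      _ ≤ 4 ^ s := by
          refine pow_le_pow_left₀ (Real.exp_pos _).le ?_ s
          have := Real.exp_one_lt_d9
          linarith
  have hX0 : 0 ≤ X := Nat.cast_nonneg _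
  have h4 : Real.exp x * X ≤ a n * a m := (mul_le_mul_of_nonneg_right h3 hX0).trans h2
  calc (Nat.card {q : (Fin (n + 1) → ℤ × ℤ) × (Fin (m + 1) → ℤ × ℤ) //
      IsSAW n q.1 ∧ IsSAW m q.2 ∧ Disj q.1 q.2 ∧
        F * (1 + x) ≤ (nearPairs r q.1 q.2 : ℝ)} : ℝ) ≤ X := by
        rw [hX]
        exact Nat.cast_le.2 hle
    _ = Real.exp (-x) * (Real.exp x * X) := by
        rw [← mul_assoc, ← Real.exp_add, neg_add_cancel, Real.exp_zero, one_mul]
    _ ≤ Real.exp (-x) * (a n * a m) := mul_le_mul_of_nonneg_left h4 (Real.exp_pos _).le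

/-- **Disjoint walks are seldom close, at all distances.** There is one constant `K` such that for
all lengths `n, m` and all real `x ≥ 0`: the probability that two independent uniform self-avoiding
walks `w, w'` from the origin of `ℤ²`, with `n` and `m` steps, are disjoint (apart from the starting
point) and have, for some distance `r ≥ 1`, at least `exp (K (log (r + 1))³) (1 + x)` pairs of sites
`w(i), w'(j)` (`i, j ≥ 1`) within distance `r` of each other is at most `e^{-x}`. -/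
theorem result : ∃ K : ℝ, 0 < K ∧ ∀ n m : ℕ, ∀ x : ℝ, 0 ≤ x →
    P n m (fun w w' => ∃ r : ℕ, 1 ≤ r ∧
      Real.exp (K * Real.log (r + 1) ^ 3) * (1 + x) ≤ (nearPairs r w w' : ℝ)) ≤
      Real.exp (-x) := by
  obtain ⟨K, hK, h⟩ := one
  refine ⟨K + 100, by linarith, fun n m x hx => ?_⟩
  have hn := a_pos n
  have hm := a_pos m
  set S : Set ((Fin (n + 1) → ℤ × ℤ) × (Fin (m + 1) → ℤ × ℤ)) :=
    {q | W840.CT.SW n q.1 ∧ W840.CT.SW m q.2} with hS
  have hSf : S.Finite :=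
    ((W840.CT.SW_finite n).prod (W840.CT.SW_finite m)).subset (fun q hq => ⟨hq.1, hq.2⟩)
  set E : ℕ → Set ((Fin (n + 1) → ℤ × ℤ) × (Fin (m + 1) → ℤ × ℤ)) := fun r =>
    {q | IsSAW n q.1 ∧ IsSAW m q.2 ∧ Disj q.1 q.2 ∧
      Real.exp (K * Real.log (r + 1) ^ 3) * (1 + (x + 2 * Real.log (r + 1))) ≤
        (nearPairs r q.1 q.2 : ℝ)} with hE
  have hlr : ∀ r : ℕ, 0 ≤ Real.log ((r : ℝ) + 1) := fun r => by
    refine Real.log_nonneg ?_
    have : (0 : ℝ) ≤ r := Nat.cast_nonneg r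
    linarith
  have hb : ∀ r : ℕ, 1 ≤ r →
      ((E r).ncard : ℝ) ≤ (Real.exp (-x) * (a n * a m)) / ((r : ℝ) + 1) ^ 2 := by
    intro r hr
    have h1 := h r n m hr (x + 2 * Real.log (r + 1)) (by have := hlr r; linarith)
    unfold P at h1
    rw [div_le_iff₀ (by positivity)] at h1
    have h2 : ((E r).ncard : ℝ) ≤
        Real.exp (-(x + 2 * Real.log (r + 1))) * ((a n : ℝ) * (a m : ℝ)) := by
      rw [← Nat.card_coe_set_eq]
      exact h1
    refine h2.trans (le_of_eq ?_)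
    · have hr1 : (0 : ℝ) < (r : ℝ) + 1 := by positivity
      have e1 : Real.exp (-(x + 2 * Real.log ((r : ℝ) + 1))) =
          Real.exp (-x) / ((r : ℝ) + 1) ^ 2 := by
        rw [neg_add, Real.exp_add, div_eq_mul_inv, Real.exp_neg (2 * _), two_mul, Real.exp_add,
          Real.exp_log hr1, sq]
      rw [e1]
      ring
  have hU := U126.QP.union_le hSf E (fun r q hq => ⟨hq.1, hq.2.1⟩) (by positivity) hb
  unfold P
  rw [div_le_iff₀ (by positivity)]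
  refine le_trans ?_ hU
  have hsub : ({q | IsSAW n q.1 ∧ IsSAW m q.2 ∧ Disj q.1 q.2 ∧ ∃ r : ℕ, 1 ≤ r ∧
      Real.exp ((K + 100) * Real.log (r + 1) ^ 3) * (1 + x) ≤ (nearPairs r q.1 q.2 : ℝ)} :
      Set ((Fin (n + 1) → ℤ × ℤ) × (Fin (m + 1) → ℤ × ℤ))) ⊆ {q | ∃ r, 1 ≤ r ∧ q ∈ E r} := by
    rintro q ⟨g1, g2, g3, r, hr, g4⟩
    refine ⟨r, hr, g1, g2, g3, le_trans ?_ g4⟩
    have e2 := U126.QP.log_abs hr
    unfold U126.QP.lg at e2
    have e3 := hlr r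
    have e5 : Real.exp ((K + 100) * Real.log (r + 1) ^ 3) =
        Real.exp (K * Real.log (r + 1) ^ 3) * Real.exp (100 * Real.log (r + 1) ^ 3) := by
      rw [← Real.exp_add]
      ring_nf
    rw [e5, mul_assoc]
    refine mul_le_mul_of_nonneg_left ?_ (Real.exp_pos _).le
    calc 1 + (x + 2 * Real.log (r + 1)) ≤ (1 + 5 * Real.log (r + 1)) * (1 + x) := by nlinarith
      _ ≤ _ := mul_le_mul_of_nonneg_right e2 (by linarith)
  have hfin : ({q | ∃ r, 1 ≤ r ∧ q ∈ E r} :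
      Set ((Fin (n + 1) → ℤ × ℤ) × (Fin (m + 1) → ℤ × ℤ))).Finite :=
    hSf.subset (fun q hq => by obtain ⟨r, _, h1, h2, _⟩ := hq; exact ⟨h1, h2⟩)
  have hle := Set.ncard_le_ncard hsub hfin
  rw [← Nat.card_coe_set_eq] at hle
  exact (Nat.cast_le (α := ℝ)).2 hle

end Pool.Agent.Results.MP_8c6f77_pr.NearPairsLog
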