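import Pool.Agent.U198.NW.Lat

/-!
# Networks of mutually avoiding self-avoiding walks: analytic continuation of the generating functions
in the fugacities of all strands

A network consists of sites of the lattice (its vertices) and of self-avoiding walks (its strands)
between them which do not meet each other except at the vertices. The topology, a connected graph with
loops and multiple edges, is arbitrary: two or more mutually avoiding walks from one point (stars),
two or more mutually avoiding walks between two points (watermelons), rooted polygons, theta graphs,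
and so on.
-/

set_option autoImplicit false

namespace Pool.Agent.Results.MP_8c6f77_pr.PolymerNetworks

open Filter Topology

/-- The steps of the square lattice. -/
def square : Finset (ℤ × ℤ) := {(1, 0), (-1, 0), (0, 1), (0, -1)}

/-- The steps of the triangular lattice, in coordinates. -/
def triangular : Finset (ℤ × ℤ) := {(1, 0), (-1, 0), (0, 1), (0, -1), (1, -1), (-1, 1)}

/-- The steps of the simple cubic lattice. -/
def cubic : Finset (ℤ × ℤ × ℤ) :=
  {(1, 0, 0), (-1, 0, 0), (0, 1, 0), (0, -1, 0), (0, 0, 1), (0, 0, -1)}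

variable {V : Type} [AddCommGroup V]

/-- The `n`-step self-avoiding walks from the origin; `x` and `y` are adjacent if `y - x ∈ D`. -/
def walks (D : Finset V) (n : ℕ) : Set (Fin (n + 1) → V) :=
  {ω | ω 0 = 0 ∧ Function.Injective ω ∧ ∀ i : Fin n, ω i.succ - ω i.castSucc ∈ D}

/-- The networks with root at the origin: the vertex `j` is at the site `pos j`, and the strand `e`
is a path from `pos (src e)` to `pos (tgt e)` with the list `pts e` of interior points. The vertices
are at different sites, every interior point is visited only once, and no edge of the lattice is used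
twice (so a strand which is a loop has length at least three, and two strands of length one have
different ends). -/
structure Network (D : Finset V) {p k : ℕ} (src tgt : Fin k → Fin (p + 1)) where
  pos : Fin (p + 1) → V
  pts : Fin k → List V
  root : pos 0 = 0
  inj : Function.Injective pos
  path : ∀ e, (pos (src e) :: (pts e ++ [pos (tgt e)])).IsChain (fun x y => y - x ∈ D)
  nodup : ∀ e, (pts e).Nodup
  disj : ∀ e e', e ≠ e' → ∀ x ∈ pts e, x ∉ pts e'
  avoid : ∀ e j, pos j ∉ pts e
  loop : ∀ e, src e = tgt e → 2 ≤ (pts e).length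
  double : ∀ e e', pts e = [] → pts e' = [] → s(src e, tgt e) = s(src e', tgt e') → e = e'

/-- The number of edges of the strand `e`. -/
def Network.len {D : Finset V} {p k : ℕ} {src tgt : Fin k → Fin (p + 1)} (N : Network D src tgt)
    (e : Fin k) : ℕ := (N.pts e).length + 1

/-- The weight of a network: a function `g` of the positions of the vertices, times for every strand
`e` the product of `h (positions) e y` over its interior points `y`, times `z e` to the power of its
length. If `h` is the indicator function of sets `S (positions) e` this restricts the interior points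
of the strand `e` to the set `S (positions) e`. -/
noncomputable def Network.weight {D : Finset V} {p k : ℕ} {src tgt : Fin k → Fin (p + 1)}
    (N : Network D src tgt) (g : (Fin (p + 1) → V) → ℂ)
    (h : (Fin (p + 1) → V) → Fin k → V → ℝ) (z : Fin k → ℂ) : ℂ :=
  g N.pos * ∏ e, ((((N.pts e).map (h N.pos e)).prod : ℝ) : ℂ) * z e ^ N.len e

/-- The vertices `a` and `b` are joined by a strand. -/
def Joined {p k : ℕ} (src tgt : Fin k → Fin (p + 1)) (a b : Fin (p + 1)) : Prop :=
  ∃ e, (src e = a ∧ tgt e = b) ∨ (src e = b ∧ tgt e = a)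

/-- `cos (arg (z ^ s))` for `z ≠ 0` -/
noncomputable def cosArg (s : ℕ) (z : ℂ) : ℝ := (z ^ s).re / ‖z‖ ^ s

/-- The domain `|z| < (1 + δ (1 - cos (arg (z ^ s)))) / μ`: the disc `|z| < 1/μ` enlarged at all
points of the circle `|z| = 1/μ` at which `z ^ s` is not positive. -/
def Dom (μ δ : ℝ) (s : ℕ) : Set ℂ := {z | μ * ‖z‖ < 1 + δ * (1 - cosArg s z)}

/-- Analytic continuation for one topology: for all `g` of at most polynomial growth in the number of
edges of the network and all `h` with values in `[0, 1]`, the sum of the weights of all networks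
extends holomorphically from the polydisc `|z e| < 1/μ` to the product of the domains `Dom μ δ s`. -/
def Continues (D : Finset V) (μ δ : ℝ) (s : ℕ) {p k : ℕ} (src tgt : Fin k → Fin (p + 1)) : Prop :=
  ∀ (g : (Fin (p + 1) → V) → ℂ) (h : (Fin (p + 1) → V) → Fin k → V → ℝ) (B : ℝ) (q : ℕ),
    (∀ x e y, 0 ≤ h x e y ∧ h x e y ≤ 1) →
    (∀ N : Network D src tgt, ‖g N.pos‖ ≤ B * ((∑ e, N.len e : ℕ) + 1 : ℝ) ^ q) →
    ∃ F : (Fin k → ℂ) → ℂ, DifferentiableOn ℂ F {z | ∀ e, z e ∈ Dom μ δ s} ∧
      ∀ z : Fin k → ℂ, (∀ e, μ * ‖z e‖ < 1) →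
        HasSum (fun N : Network D src tgt => N.weight g h z) (F z)

/-- The statement for one lattice; `δ` does not depend on the topology. -/
def Law (D : Finset V) (s : ℕ) : Prop :=
  ∃ μ : ℝ, 1 ≤ μ ∧
    Tendsto (fun n : ℕ => ((walks D n).ncard : ℝ) ^ (1 / (n : ℝ))) atTop (𝓝 μ) ∧
    ∃ δ : ℝ, 0 < δ ∧
    (IsOpen (Dom μ δ s) ∧ IsPreconnected (Dom μ δ s) ∧ (∀ z : ℂ, μ * ‖z‖ < 1 → z ∈ Dom μ δ s) ∧
      ∀ z : ℂ, μ * ‖z‖ = 1 → z ^ s ≠ (‖z‖ : ℂ) ^ s → z ∈ Dom μ δ s) ∧
    ∀ (p k : ℕ) (src tgt : Fin k → Fin (p + 1)),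
      (∀ j, Relation.ReflTransGen (Joined src tgt) 0 j) → Continues D μ δ s src tgt

/-! ### transfer -/

open Pool.Agent.U198.NW Pool.Agent.N929.EG Pool.Agent.N169.EG

theorem ncard_walks (D : Finset V) {X : Geo V} (hX : X.o = 0) (Z : Rul X (fun x y => y - x ∈ D))
    (n : ℕ) : (walks D n).ncard = (Kw X (fun x y => y - x ∈ D) n).card := by
  have himg : List.ofFn '' walks D n = (Kw X (fun x y => y - x ∈ D) n : Set (List V)) := by
    ext w
    rw [Finset.mem_coe, mem_K Z, Set.mem_image]
    have key : ∀ f : Fin (n + 1) → V,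
        Walk X.o (fun x y => y - x ∈ D) (List.ofFn f) ↔ f ∈ walks D n := by
      intro f
      unfold Walk walks
      rw [List.nodup_ofFn, List.isChain_ofFn, Set.mem_ofPred_eq, hX]
      refine and_congr ?_ (and_congr Iff.rfl ?_)
      · rw [List.ofFn_succ]
        simp
      · constructor
        · intro h i
          exact h i.1 (by have := i.2; omega)
        · intro h i hi
          exact h ⟨i, by omega⟩
    constructor
    · rintro ⟨f, hf, rfl⟩
      exact ⟨by simp, (key f).2 hf⟩
    · rintro ⟨h1, h2⟩
      have e : List.ofFn (fun i : Fin (n + 1) => w[i.1]'(by rw [h1]; exact i.2)) = w := by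
        apply List.ext_getElem
        · simp [h1]
        · intro i hi hi'
          rw [List.getElem_ofFn]
      refine ⟨_, ?_, e⟩
      exact (key (fun i : Fin (n + 1) => w[i.1]'(by rw [h1]; exact i.2))).1 (by rw [e]; exact h2)
  rw [← Set.ncard_image_of_injective _ List.ofFn_injective, himg, Set.ncard_coe_finset]

/-- paths -/
theorem joins_iff {A : V → V → Prop} (a b : V) (I : List V) :
    Joins A a b I ↔ (a :: (I ++ [b])).IsChain A := by
  unfold Joins
  rw [List.isChain_cons, List.isChain_append]
  cases I with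
  | nil => simp
  | cons x l =>
    simp only [List.isChain_singleton, List.head?_cons, Option.mem_def,
      Option.some.injEq, forall_eq', reduceCtorEq, false_imp_iff, and_true, true_and,
      List.cons_append]
    constructor
    · rintro ⟨h1, h2, h3⟩
      exact ⟨h2, h1, h3⟩
    · rintro ⟨h1, h2, h3⟩
      exact ⟨h2, h1, h3⟩

/-- the conditions on the networks -/
def Qn {p k : ℕ} (src tgt : Fin k → Fin (p + 1)) (w : Net V (p + 1) k) : Prop :=
  w.1 0 = 0 ∧ Function.Injective w.1 ∧ (∀ e, src e = tgt e → 2 ≤ (w.2 e).length) ∧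
    ∀ e e', w.2 e = [] → w.2 e' = [] → s(src e, tgt e) = s(src e', tgt e') → e = e'

theorem ins_Qn {p k : ℕ} (src tgt : Fin k → Fin (p + 1)) : Ins (Qn (V := V) src tgt) := by
  rintro v I e J h1 h2 ⟨q1, q2, q3, q4⟩
  have hJ : J ≠ [] := by
    rintro rfl
    simp at h2
  have key : ∀ e', Function.update I e J e' = [] → I e' = [] := by
    intro e' he'
    rcases eq_or_ne e' e with rfl | hne
    · rw [Function.update_self] at he'
      exact absurd he' hJ
    · rwa [Function.update_of_ne hne] at he'
  refine ⟨q1, q2, fun e' he' => ?_, fun e' e'' h3 h4 h5 => q4 e' e'' (key e' h3) (key e'' h4) h5⟩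
  rcases eq_or_ne e' e with rfl | hne
  · simp only [Function.update_self]
    exact h2
  · simp only [Function.update_of_ne hne]
    exact q3 e' he'

/-- the networks -/
def eqv (D : Finset V) {p k : ℕ} (src tgt : Fin k → Fin (p + 1)) : Network D src tgt ≃
    {w : Net V (p + 1) k // Ok (fun x y => y - x ∈ D) src tgt (Qn src tgt) w} where
  toFun N := ⟨(N.pos, N.pts), ⟨fun e => (joins_iff _ _ _).2 (N.path e), N.nodup, N.disj, N.avoid,
    ⟨N.root, N.inj, N.loop, N.double⟩⟩⟩
  invFun w := ⟨w.1.1, w.1.2, w.2.q.1, w.2.q.2.1, fun e => (joins_iff _ _ _).1 (w.2.join e),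
    w.2.nod, w.2.dis, w.2.ver, w.2.q.2.2.1, w.2.q.2.2.2⟩
  left_inv _ := rfl
  right_inv _ := rfl

theorem law_of (D : Finset V) {s : ℕ} (hs : 1 ≤ s) {μ : ℝ} (hμ : 1 ≤ μ)
    (hr : Tendsto (fun n : ℕ => ((walks D n).ncard : ℝ) ^ (1 / (n : ℝ))) atTop (𝓝 μ))
    (h : Cont (fun x y : V => y - x ∈ D) μ s) : Law D s := by
  obtain ⟨-, δ, hδ, h⟩ := h
  refine ⟨μ, hμ, hr, δ, hδ, Pool.Agent.N929.AC.dom_facts hδ hμ hs, ?_⟩
  intro p k src tgt hC g hh B q h01 hg
  obtain ⟨F, hF1, hF2⟩ := h p k src tgt (Qn src tgt) hC (ins_Qn src tgt) (fun N hN => hN.1) g hh B q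
    h01 (fun w hw => by
      have h1 := hg ((eqv D src tgt).symm ⟨w, hw⟩)
      exact h1)
  refine ⟨F, hF1, fun z hz => ?_⟩
  have h1 := hF2 z hz
  rw [← (eqv D src tgt).hasSum_iff] at h1
  refine (congrArg (fun f => HasSum f (F z)) ?_).mp h1
  funext N
  show g N.pos * ((((∏ e, ((N.pts e).map (hh N.pos e)).prod : ℝ)) : ℂ) *
    ∏ e, z e ^ ((N.pts e).length + 1)) = N.weight g hh z
  unfold Network.weight Network.len
  rw [Complex.ofReal_prod, ← Finset.prod_mul_distrib]

theorem adj_sq : (fun x y : ℤ × ℤ => y - x ∈ square) = Pool.Agent.R965.HP.Sq.A := by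
  funext x y
  rw [eq_iff_iff, Pool.Agent.R965.HP.Sq.A_iff]
  unfold square
  simp only [Finset.mem_insert, Finset.mem_singleton, Prod.ext_iff, Prod.fst_sub, Prod.snd_sub]
  omega

theorem adj_3 : (fun x y : ℤ × ℤ × ℤ => y - x ∈ cubic) = A3 := by
  funext x y
  rw [eq_iff_iff]
  unfold A3 cubic
  simp only [Finset.mem_insert, Finset.mem_singleton]
  constructor
  · rintro (h | h | h | h | h | h)
    · exact ⟨.xp, by rw [sub_eq_iff_eq_add'] at h; exact h⟩
    · exact ⟨.xm, by rw [sub_eq_iff_eq_add'] at h; exact h⟩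
    · exact ⟨.yp, by rw [sub_eq_iff_eq_add'] at h; exact h⟩
    · exact ⟨.ym, by rw [sub_eq_iff_eq_add'] at h; exact h⟩
    · exact ⟨.zp, by rw [sub_eq_iff_eq_add'] at h; exact h⟩
    · exact ⟨.zm, by rw [sub_eq_iff_eq_add'] at h; exact h⟩
  · rintro ⟨d, rfl⟩
    rw [add_sub_cancel_left]
    cases d <;> simp [KN.vec]

theorem root_of (L : H982.Lat) (D : Finset (ℤ × ℤ)) {A : ℤ × ℤ → ℤ × ℤ → Prop}
    (e : (fun x y : ℤ × ℤ => y - x ∈ D) = A) (Z : TH966.AK.Rule A) {φ : ℤ × ℤ → ℤ × ℤ}
    {R : ℕ → ℤ × ℤ → Prop} (H : @H982.Coord L A φ R) :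
    Tendsto (fun n : ℕ => ((walks D n).ncard : ℝ) ^ (1 / (n : ℝ))) atTop
      (𝓝 (@H982.mu L)) := by
  have h1 := @H982.tendsto_root L
  refine h1.congr fun n => ?_
  have h2 : ((walks D n).ncard : ℝ) = @H982.cr' L n := by
    subst e
    rw [← Pool.Agent.R965.HP.card_full Z H n, ← TH966.AK.card_wks Z]
    rfl
  rw [h2]

/-- **Theorem.** On the square, the triangular and the simple cubic lattice let `μ` be the connective
constant and `s = 2`, `1` and `2`. There is a connected open set `Dom μ δ s` of complex numbers which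
contains the disc `|z| < 1/μ` and all points of the circle `|z| = 1/μ` at which `z^s` is not positive,
such that for every connected topology of networks with `k` strands, every function `g` of the
positions of the vertices with at most polynomial growth, and every family `h` of functions of the
sites with values in `[0, 1]`, which may depend on the strand and on the positions of the vertices,
the generating function `∑ g(x) ∏_e (∏_y h_e(x, y)) z_e^(length of the strand e)` of the networks
extends holomorphically from the polydisc `|z_e| < 1/μ` to the product of `k` copies of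
`Dom μ δ s`. -/
theorem result : Law square 2 ∧ Law triangular 1 ∧ Law cubic 2 := by
  refine ⟨?_, ?_, ?_⟩
  · have h := cont_sq
    rw [← adj_sq] at h
    exact law_of square one_le_two h.1
      (root_of H982P.sqL square adj_sq Pool.Agent.R965.HP.Sq.rule H982P.coord_sq) h
  · have h := cont_tri
    obtain ⟨φ, R, htri, -⟩ := Pool.Agent.R965.HP.coord_triA
    exact law_of triangular le_rfl h.1
      (root_of H982P.triL triangular rfl TH966.AK.Tri.rule htri) h
  · have h := cont_3
    rw [← adj_3] at h
    refine law_of cubic one_le_two h.1 ?_ h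
    refine Pool.Agent.H46R2.K3.P.tendsto_c.congr fun n => ?_
    have hR : ∃ Z : Rul Pool.Agent.N953.EG.X3 (fun x y : ℤ × ℤ × ℤ => y - x ∈ cubic), True := by
      rw [adj_3]
      exact ⟨Pool.Agent.N953.EG.R3, trivial⟩
    obtain ⟨Z, -⟩ := hR
    have h2 : (walks cubic n).ncard = Pool.Agent.H46R2.K3.c n := by
      rw [ncard_walks cubic rfl Z n, adj_3]
      exact card3 n
    rw [h2]

end Pool.Agent.Results.MP_8c6f77_pr.PolymerNetworks
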